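import Pool.Agent.AEC.StmtsB

/-!
# Squad AEC, row W1F
-/

namespace Pool.Agent.AEC.H8

open Cardinal

universe u

/-- W1F -/
theorem w1f (hH : HnfStmt.{u}) (hA : TpaStmt.{u}) (hB : TpbStmt.{u}) (hE : EmxStmt.{u})
    (hW : W1aStmt.{u}) : W1fStmt.{u} := by
  intro κ
  obtain ⟨μ, hμ⟩ := hH κ
  refine ⟨μ, ?_⟩
  intro L K hK
  have hU : K.UbCat := (hμ L K).1 hK
  have hArb : K.ArbLarge := by
    intro m
    obtain ⟨l, hl, hcat⟩ := hU m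
    obtain ⟨⟨M, hM⟩, _⟩ := hcat
    exact ⟨M, by rw [hM]; exact hl⟩
  obtain ⟨p, hp⟩ := hA L κ K hArb
  exact hW L κ K (hE L κ K (hB L κ K p hp)) hU

end Pool.Agent.AEC.H8
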